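import Pool.Agent.H.MP_f30f9b_al.ASFinal

/-!
# Abelian covers of the line with rational branch points in characteristic p
-/

set_option autoImplicit false

open Polynomial

namespace Pool.Agent.Results.MP_f30f9b_al.AbelianCovers

universe v

theorem result {K : Type v} [Field K] [Infinite K] (p : ℕ) [Fact p.Prime] [CharP K p]
    (hK : ∀ n : ℕ, 1 ≤ n → (powMonoidHom n : Kˣ →* Kˣ).range.index ≠ 0)
    (hAS : ∃ S : Set K, S.Finite ∧ ∀ x : K, ∃ s ∈ S, ∃ y : K, x = s + (y ^ p - y))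
    (r s : ℕ) (e : Fin r → ℕ) (f : Fin r → K[X]) (N D : Fin s → K[X])
    (hf : ∀ i, 1 ≤ e i ∧ f i ≠ 0 ∧ (f i).Splits) (hD : ∀ j, D j ≠ 0 ∧ (D j).Splits)
    (hx : ∃ x : LaurentSeries K, x ∉ (algebraMap K (LaurentSeries K)).range ∧
      (∀ i, ∃ y : LaurentSeries K, y ^ e i = aeval x (f i)) ∧
      ∀ j, ∃ z : LaurentSeries K, z ^ p - z = aeval x (N j) / aeval x (D j)) :
    {x : K | (∀ i, ∃ y : K, y ^ e i = (f i).eval x) ∧
      ∀ j, (D j).eval x ≠ 0 ∧ ∃ z : K, z ^ p - z = (N j).eval x / (D j).eval x}.Infinite :=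
  Pool.MP_f30f9b_al.AS.infinite_systems p hK hAS e (fun i => (hf i).1) f
    (fun i => (hf i).2.1) (fun i => (hf i).2.2) N D (fun j => (hD j).1) (fun j => (hD j).2) hx

end Pool.Agent.Results.MP_f30f9b_al.AbelianCovers
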