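import Pool.Agent.H.MP_f30f9b_al.ASFinal

/-!
# Towers of additive equations over the affine line in characteristic p
-/

set_option autoImplicit false

namespace Pool.Agent.Results.MP_f30f9b_al.PGroupCovers

theorem result {K : Type*} [Field K] [Infinite K] (p : ℕ) [Fact p.Prime] [CharP K p] (k : ℕ)
    (L : Fin k → (K →+ K)) (hL : ∀ i, (L i).range.index ≠ 0)
    (g : Fin k → MvPolynomial (Fin (k + 1)) K) (hg : ∀ i, ∀ j ∈ (g i).vars, j ≤ i.castSucc)
    (hv : ∃ v : Fin (k + 1) → K, ∀ i, L i (v i.succ) = MvPolynomial.eval v (g i)) :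
    {v : Fin (k + 1) → K | ∀ i, L i (v i.succ) = MvPolynomial.eval v (g i)}.Infinite :=
  Pool.MP_f30f9b_al.AS.infinite_towers p L hL g hg hv

end Pool.Agent.Results.MP_f30f9b_al.PGroupCovers
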