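import Pool.Agent.H.MP_f30f9b_al.Quad

/-!
# Elliptic curves with a rational point of order two over almost radically closed fields
-/

set_option autoImplicit false

open WeierstrassCurve

namespace Pool.Agent.Results.MP_f30f9b_al.PointOfOrderTwo

theorem result {K : Type*} [Field K] [Infinite K] [DecidableEq K] (h2 : (2 : K) ≠ 0)
    (hK : (powMonoidHom 2 : Kˣ →* Kˣ).range.index ≠ 0) (W : WeierstrassCurve K) [W.IsElliptic]
    (P : W.toAffine.Point) (hP : P ≠ 0) (hPP : P + P = 0) :
    {p : K × K | W.toAffine.Equation p.1 p.2}.Infinite :=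
  Pool.MP_f30f9b_al.Ell.infinite_of_two_torsion h2 hK W P hP hPP

end Pool.Agent.Results.MP_f30f9b_al.PointOfOrderTwo
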